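import Pool.Agent.H65.CRG.TL
import Pool.Agent.H99.CRZ.CN

/-!
# (CN) the three constants.  helper34
-/

set_option autoImplicit false

namespace Pool.Agent.H34.CRG

open Pool.Agent.H65.CRG Pool.Agent.H65.CRZ

theorem cn_exp4 : (54.598 : ℝ) < Real.exp 4 ∧ Real.exp 4 < 54.5982 := by
  have h1 : Real.exp 4 = Real.exp 1 ^ 4 := by
    rw [← Real.exp_nat_mul]
    norm_num
  have h2 := Real.exp_one_gt_d9
  have h3 := Real.exp_one_lt_d9
  have h4 : (2.7182818283 : ℝ) ^ 4 < Real.exp 1 ^ 4 :=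
    pow_lt_pow_left₀ h2 (by norm_num) (by norm_num)
  have h5 : Real.exp 1 ^ 4 < (2.7182818286 : ℝ) ^ 4 :=
    pow_lt_pow_left₀ h3 (Real.exp_pos _).le (by norm_num)
  rw [h1]
  exact ⟨lt_trans (by norm_num) h4, lt_trans h5 (by norm_num)⟩

theorem cn_exp5 : (148.413 : ℝ) < Real.exp 5 ∧ Real.exp 5 < 148.4132 := by
  have h1 : Real.exp 5 = Real.exp 1 ^ 5 := by
    rw [← Real.exp_nat_mul]
    norm_num
  have h2 := Real.exp_one_gt_d9
  have h3 := Real.exp_one_lt_d9
  have h4 : (2.7182818283 : ℝ) ^ 5 < Real.exp 1 ^ 5 :=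
    pow_lt_pow_left₀ h2 (by norm_num) (by norm_num)
  have h5 : Real.exp 1 ^ 5 < (2.7182818286 : ℝ) ^ 5 :=
    pow_lt_pow_left₀ h3 (Real.exp_pos _).le (by norm_num)
  rw [h1]
  exact ⟨lt_trans (by norm_num) h4, lt_trans h5 (by norm_num)⟩

theorem cn_cc2 : 1 ≤ cc 2 (13 / 12) (2499 / 10000) ∧
    cc 2 (13 / 12) (2499 / 10000) ≤ 5782 / 1000 := by
  obtain ⟨h1, h2⟩ := cn_exp4
  have e : (2 : ℝ) * 2 = 4 := by norm_num
  constructor
  · unfold cc
    rw [e]
    simp only
    generalize Real.exp 4 = E at h1 h2 ⊢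
    norm_num
    linarith
  · unfold cc
    rw [e]
    simp only
    generalize Real.exp 4 = E at h1 h2 ⊢
    norm_num
    linarith

theorem cn_cc3 : 1 ≤ cc (5 / 2) (12 / 11) (1666 / 10000) ∧
    cc (5 / 2) (12 / 11) (1666 / 10000) ≤ 12072 / 1000 := by
  obtain ⟨h1, h2⟩ := cn_exp5
  have e : (2 : ℝ) * (5 / 2) = 5 := by norm_num
  constructor
  · unfold cc
    rw [e]
    simp only
    generalize Real.exp 5 = E at h1 h2 ⊢
    norm_num
    linarith
  · unfold cc
    rw [e]
    simp only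
    generalize Real.exp 5 = E at h1 h2 ⊢
    norm_num
    linarith

theorem cn_log2 : Real.log (5782 / 1000) ≤ 17557 / 10000 := by
  rw [Real.log_le_iff_le_exp (by norm_num)]
  have h := Real.sum_le_exp_of_nonneg (x := 17557 / 10000) (by norm_num) 11
  refine le_trans ?_ h
  simp only [Finset.sum_range_succ, Finset.sum_range_zero]
  norm_num [Nat.factorial]

theorem cn_log3 : Real.log (12072 / 1000) ≤ 249115 / 100000 := by
  rw [Real.log_le_iff_le_exp (by norm_num)]
  have h := Real.sum_le_exp_of_nonneg (x := 249115 / 100000) (by norm_num) 14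
  refine le_trans ?_ h
  simp only [Finset.sum_range_succ, Finset.sum_range_zero]
  norm_num [Nat.factorial]

theorem pf_CN : Pool.Agent.H65.CRG.T_CN := by
  obtain ⟨a1, a2, a3⟩ := Pool.Agent.H99.CRZ.pf_CN
  obtain ⟨b1, b2⟩ := cn_cc2
  obtain ⟨c1, c2⟩ := cn_cc3
  refine ⟨?_, ?_, ?_⟩
  · have h : Real.log (cc (5 / 4) (26 / 25) (499 / 1000)) ≤ 8187 / 10000 :=
      le_trans (Real.log_le_log (by linarith) (by linarith)) a3
    have h2 : Real.log (cc (5 / 4) (26 / 25) (499 / 1000)) / (5 / 4) ≤ 8187 / 10000 / (5 / 4) :=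
      div_le_div_of_nonneg_right h (by norm_num)
    norm_num at h2 ⊢
    linarith
  · have h : Real.log (cc 2 (13 / 12) (2499 / 10000)) ≤ 17557 / 10000 :=
      le_trans (Real.log_le_log (by linarith) b2) cn_log2
    have h2 : Real.log (cc 2 (13 / 12) (2499 / 10000)) / 2 ≤ 17557 / 10000 / 2 :=
      div_le_div_of_nonneg_right h (by norm_num)
    norm_num at h2 ⊢
    linarith
  · have h : Real.log (cc (5 / 2) (12 / 11) (1666 / 10000)) ≤ 249115 / 100000 :=
      le_trans (Real.log_le_log (by linarith) c2) cn_log3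
    have h2 : Real.log (cc (5 / 2) (12 / 11) (1666 / 10000)) / (5 / 2) ≤
        249115 / 100000 / (5 / 2) :=
      div_le_div_of_nonneg_right h (by norm_num)
    norm_num at h2 ⊢
    linarith

end Pool.Agent.H34.CRG
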